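import Mathlib

set_option autoImplicit false

/-! The bucket game on a finite graph. -/

namespace Pool.Agent.R736.BK

variable {V : Type*} [Fintype V] [DecidableEq V]

/-- `I` is an independent set of `G`. -/
def Indep (G : SimpleGraph V) (I : Finset V) : Prop := ∀ u ∈ I, ∀ v ∈ I, ¬ G.Adj u v

/-- A legal move of the Stepmother: nonnegative amounts with total `1`. -/
def Move (a : V → ℝ) : Prop := (∀ v, 0 ≤ a v) ∧ ∑ v, a v = 1

/-- The contents after `n` rounds, if in round `i` the Stepmother adds `a i` and Cinderella empties `I i`. -/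
def content (a : ℕ → V → ℝ) (I : ℕ → Finset V) : ℕ → V → ℝ
  | 0 => fun _ => 0
  | n + 1 => fun v => if v ∈ I n then 0 else content a I n v + a n v

/-- Cinderella has a strategy that keeps the game with capacity `b` running forever. `σ a n` is the set she
empties in round `n` against the Stepmother's moves `a`; it depends only on `a 0, …, a n`. -/
def Good (G : SimpleGraph V) (b : ℝ) : Prop :=
  ∃ σ : (ℕ → V → ℝ) → ℕ → Finset V,
    (∀ a a' n, (∀ i ≤ n, a i = a' i) → σ a n = σ a' n) ∧ (∀ a n, Indep G (σ a n)) ∧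
    ∀ a, (∀ n, Move (a n)) → ∀ n v, content a (σ a) n v + a n v ≤ b

/-- `I` is a greedy choice for the contents `x`: an independent set of maximal total content. -/
def IsGreedy (G : SimpleGraph V) (x : V → ℝ) (I : Finset V) : Prop :=
  Indep G I ∧ ∀ J, Indep G J → ∑ v ∈ J, x v ≤ ∑ v ∈ I, x v

/-- With capacity `b` there is never an overflow when Cinderella plays GREEDY, whatever the Stepmother does and
however the ties are broken. -/
def GGood (G : SimpleGraph V) (b : ℝ) : Prop :=
  ∀ (a : ℕ → V → ℝ) (I : ℕ → Finset V), (∀ n, Move (a n)) →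
    (∀ n, IsGreedy G (fun v => content a I n v + a n v) (I n)) → ∀ n v, content a I n v + a n v ≤ b

/-- The bucket number. -/
noncomputable def bucket (G : SimpleGraph V) : ℝ := sInf {b : ℝ | 0 < b ∧ Good G b} - 1

/-- The greedy bucket number. -/
noncomputable def gbucket (G : SimpleGraph V) : ℝ := sInf {b : ℝ | 0 < b ∧ GGood G b} - 1

/-- contents `x`, after emptying `I` -/
def emp (x : V → ℝ) (I : Finset V) (v : V) : ℝ := if v ∈ I then 0 else x v

omit [Fintype V] in
theorem emp_le {x : V → ℝ} (hx : ∀ v, 0 ≤ x v) (I : Finset V) (v : V) : emp x I v ≤ x v := by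
  rw [emp]; split_ifs
  · exact hx v
  · exact le_refl _

omit [Fintype V] in
theorem emp_nonneg {x : V → ℝ} (hx : ∀ v, 0 ≤ x v) (I : Finset V) (v : V) : 0 ≤ emp x I v := by
  rw [emp]; split_ifs
  · exact le_refl _
  · exact hx v

omit [Fintype V] in
/-- every policy for both players yields a play -/
theorem content_policy (a : ℕ → V → ℝ) (F : ℕ → (V → ℝ) → Finset V) (x : ℕ → V → ℝ) (I : ℕ → Finset V)
    (h0 : x 0 = fun _ => 0) (hI : ∀ n, I n = F n (fun v => x n v + a n v))
    (hx : ∀ n, x (n + 1) = emp (fun v => x n v + a n v) (F n (fun v => x n v + a n v))) (n : ℕ) :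
    content a I n = x n := by
  induction n with
  | zero => rw [content, h0]
  | succ n ih =>
    rw [content, hx]
    funext v
    rw [ih, emp, hI]

/-! ### Cinderella's good strategy -/

omit [Fintype V] [DecidableEq V] in
theorem exists_class {k : ℕ} (hk : 0 < k) (w : V → ℝ) (S : Finset V) (χ : V → Fin k) :
    ∃ i, (∑ v ∈ S, w v) / k ≤ ∑ v ∈ S.filter (fun v => χ v = i), w v := by
  by_contra hcon
  push Not at hcon
  have h1 : ∑ v ∈ S, w v = ∑ i : Fin k, ∑ v ∈ S.filter (fun v => χ v = i), w v :=
    (Finset.sum_fiberwise S χ w).symm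
  have h2 : ∑ i : Fin k, ∑ v ∈ S.filter (fun v => χ v = i), w v < ∑ _i : Fin k, (∑ v ∈ S, w v) / k :=
    Finset.sum_lt_sum_of_nonempty ⟨⟨0, hk⟩, Finset.mem_univ _⟩ fun i _ => hcon i
  rw [← h1, Finset.sum_const, Finset.card_univ, Fintype.card_fin, nsmul_eq_mul, mul_div_cancel₀] at h2
  · exact lt_irrefl _ h2
  · exact_mod_cast hk.ne'

/-- the excess of the contents -/
noncomputable def Z (x : V → ℝ) : ℝ := ∑ v, max (x v - 1) 0

theorem odd_step (G : SimpleGraph V) {k : ℕ} (hk : 0 < k) (χ : V → Fin k)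
    (hχ : ∀ u v, G.Adj u v → χ u ≠ χ v) (x : V → ℝ) (hx : ∀ v, 0 ≤ x v) :
    ∃ I, Indep G I ∧ ∑ v, emp x I v ≤ (∑ v, x v) * (1 - 1 / k) := by
  obtain ⟨i, hi⟩ := exists_class hk x Finset.univ χ
  refine ⟨Finset.univ.filter (fun v => χ v = i), ?_, ?_⟩
  · intro u hu v hv huv
    rw [Finset.mem_filter] at hu hv
    exact hχ u v huv (hu.2.trans hv.2.symm)
  · have h1 : ∑ v, emp x (Finset.univ.filter (fun v => χ v = i)) v =
        ∑ v, x v - ∑ v ∈ Finset.univ.filter (fun v => χ v = i), x v := by
      rw [eq_sub_iff_add_eq, ← Finset.sum_filter_add_sum_filter_not Finset.univ (fun v => χ v = i) x, add_comm]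
      congr 1
      rw [Finset.sum_filter]
      refine Finset.sum_congr rfl fun v _ => ?_
      by_cases h : χ v = i <;> simp [emp, h]
    rw [h1]
    have : (∑ v, x v) * (1 - 1 / (k : ℝ)) = ∑ v, x v - (∑ v, x v) / k := by ring
    rw [this]
    linarith

theorem even_step (G : SimpleGraph V) {K : ℕ}
    (h4 : ∀ S : Finset V, S.card ≤ K → ∃ χ : V → Fin 4, ∀ u ∈ S, ∀ v ∈ S, G.Adj u v → χ u ≠ χ v)
    (x : V → ℝ) (hx : ∀ v, 0 ≤ x v) (hT : ∑ v, x v ≤ K) :
    ∃ I, Indep G I ∧ Z (emp x I) ≤ Z x * (3 / 4) := by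
  set S := Finset.univ.filter (fun v => 1 < x v) with hS
  have hcard : S.card ≤ K := by
    have h1 : (S.card : ℝ) ≤ ∑ v ∈ S, x v := by
      rw [Finset.card_eq_sum_ones]
      push_cast
      refine Finset.sum_le_sum fun v hv => ?_
      rw [hS, Finset.mem_filter] at hv
      exact hv.2.le
    have h2 : ∑ v ∈ S, x v ≤ ∑ v, x v :=
      Finset.sum_le_sum_of_subset_of_nonneg (Finset.subset_univ _) fun v _ _ => hx v
    exact_mod_cast (h1.trans h2).trans hT
  obtain ⟨χ, hχ⟩ := h4 S hcard
  obtain ⟨i, hi⟩ := exists_class (by norm_num : 0 < 4) (fun v => max (x v - 1) 0) S χ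
  refine ⟨S.filter (fun v => χ v = i), ?_, ?_⟩
  · intro u hu v hv huv
    rw [Finset.mem_filter] at hu hv
    exact hχ u hu.1 v hv.1 huv (hu.2.trans hv.2.symm)
  · have hZ : Z x = ∑ v ∈ S, max (x v - 1) 0 := by
      rw [Z]
      symm
      refine Finset.sum_subset (Finset.subset_univ _) fun v _ hv => ?_
      rw [hS, Finset.mem_filter, not_and, not_lt] at hv
      exact max_eq_right (by linarith [hv (Finset.mem_univ v)])
    have h1 : Z (emp x (S.filter (fun v => χ v = i))) = Z x - ∑ v ∈ S.filter (fun v => χ v = i), max (x v - 1) 0 := by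
      rw [eq_sub_iff_add_eq, Z, Z, ← Finset.sum_filter_add_sum_filter_not Finset.univ
        (fun v => v ∈ S.filter (fun v => χ v = i)) (fun v => max (x v - 1) 0), add_comm]
      have e1 : Finset.univ.filter (fun v => v ∈ S.filter (fun v => χ v = i)) = S.filter (fun v => χ v = i) := by
        ext v; simp
      rw [e1]
      congr 1
      rw [Finset.sum_filter]
      refine Finset.sum_congr rfl fun v _ => ?_
      rw [emp]
      by_cases h : v ∈ S.filter (fun v => χ v = i)
      · rw [if_pos h, if_neg (not_not.2 h)]; norm_num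
      · rw [if_neg h, if_pos h]
    rw [h1, hZ]
    push_cast at hi
    linarith

theorem good_nine (G : SimpleGraph V) {k : ℕ} (hk : 0 < k) (χ : V → Fin k)
    (hχ : ∀ u v, G.Adj u v → χ u ≠ χ v)
    (h4 : ∀ S : Finset V, S.card ≤ 2 * k → ∃ χ : V → Fin 4, ∀ u ∈ S, ∀ v ∈ S, G.Adj u v → χ u ≠ χ v) :
    Good G 9 := by
  classical
  have hk' : (0 : ℝ) < k := by exact_mod_cast hk
  have hF : ∀ (n : ℕ) (x : V → ℝ), ∃ I, Indep G I ∧ ((∀ v, 0 ≤ x v) →
      (n % 2 = 0 → ∑ v, emp x I v ≤ (∑ v, x v) * (1 - 1 / k)) ∧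
      (n % 2 = 1 → ∑ v, x v ≤ (2 * k : ℕ) → Z (emp x I) ≤ Z x * (3 / 4))) := by
    intro n x
    by_cases hx : ∀ v, 0 ≤ x v
    · rcases Nat.mod_two_eq_zero_or_one n with hn | hn
      · obtain ⟨I, h1, h2⟩ := odd_step G hk χ hχ x hx
        exact ⟨I, h1, fun _ => ⟨fun _ => h2, fun h => by omega⟩⟩
      · by_cases hT : ∑ v, x v ≤ (2 * k : ℕ)
        · obtain ⟨I, h1, h2⟩ := even_step G h4 x hx hT
          exact ⟨I, h1, fun _ => ⟨fun h => by omega, fun _ _ => h2⟩⟩
        · exact ⟨∅, fun u hu => by simp at hu, fun _ => ⟨fun h => by omega, fun _ h => absurd h hT⟩⟩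
    · exact ⟨∅, fun u hu => by simp at hu, fun h => absurd h hx⟩
  choose F hF1 hF2 using hF
  -- the contents produced by the strategy
  let st : (ℕ → V → ℝ) → ℕ → V → ℝ := fun a n => Nat.rec (fun _ => 0)
    (fun n x => emp (fun v => x v + a n v) (F n (fun v => x v + a n v))) n
  have hst0 : ∀ a, st a 0 = fun _ => 0 := fun a => rfl
  have hst : ∀ a n, st a (n + 1) = emp (fun v => st a n v + a n v) (F n (fun v => st a n v + a n v)) :=
    fun a n => rfl
  let σ : (ℕ → V → ℝ) → ℕ → Finset V := fun a n => F n (fun v => st a n v + a n v)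
  have hcont : ∀ a n, content a (σ a) n = st a n := fun a n =>
    content_policy a F (st a) (σ a) (hst0 a) (fun n => rfl) (hst a) n
  refine ⟨σ, ?_, fun a n => hF1 _ _, ?_⟩
  · intro a a' n h
    have h1 : ∀ m ≤ n, st a m = st a' m := by
      intro m
      induction m with
      | zero => intro _; rw [hst0, hst0]
      | succ m ih =>
        intro hm
        rw [hst, hst, ih (by omega), h m (by omega)]
    show F n (fun v => st a n v + a n v) = F n (fun v => st a' n v + a' n v)
    rw [h1 n le_rfl, h n le_rfl]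
  · intro a ha n v
    rw [hcont]
    have hnn : ∀ m v, 0 ≤ st a m v := by
      intro m
      induction m with
      | zero => intro v; rw [hst0]
      | succ m ih =>
        intro v
        rw [hst]
        exact emp_nonneg (fun v => add_nonneg (ih v) ((ha m).1 v)) _ v
    have hadd : ∀ m v, 0 ≤ st a m v + a m v := fun m v => add_nonneg (hnn m v) ((ha m).1 v)
    have hTadd : ∀ m, ∑ v, (st a m v + a m v) = ∑ v, st a m v + 1 := fun m => by
      rw [Finset.sum_add_distrib, (ha m).2]
    have hZadd : ∀ m, Z (fun v => st a m v + a m v) ≤ Z (st a m) + 1 := by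
      intro m
      have e0 : Z (st a m) + 1 = ∑ v, (max (st a m v - 1) 0 + a m v) := by
        rw [Finset.sum_add_distrib, (ha m).2]; rfl
      rw [Z, e0]
      refine Finset.sum_le_sum fun v _ => ?_
      have := (ha m).1 v
      refine max_le ?_ ?_
      · have := le_max_left (st a m v - 1) 0
        linarith
      · have := le_max_right (st a m v - 1) 0
        linarith
    have hZemp : ∀ (x : V → ℝ), (∀ v, 0 ≤ x v) → ∀ I, Z (emp x I) ≤ Z x := by
      intro x hx I
      exact Finset.sum_le_sum fun v _ => max_le_max (by have := emp_le hx I v; linarith) (le_refl _)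
    have hTemp : ∀ (x : V → ℝ), (∀ v, 0 ≤ x v) → ∀ I, ∑ v, emp x I v ≤ ∑ v, x v := fun x hx I =>
      Finset.sum_le_sum fun v _ => emp_le hx I v
    have hinv : ∀ m, (m % 2 = 0 → ∑ v, st a m v ≤ 2 * k ∧ Z (st a m) ≤ 6) ∧
        (m % 2 = 1 → ∑ v, st a m v ≤ 2 * k - 1 ∧ Z (st a m) ≤ 7) := by
      intro m
      induction m with
      | zero =>
        refine ⟨fun _ => ?_, fun h => by omega⟩
        rw [hst0, Z]
        simp
      | succ m ih =>
        rcases Nat.mod_two_eq_zero_or_one m with hm | hm
        · refine ⟨fun h => by omega, fun _ => ?_⟩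
          obtain ⟨h1, h2⟩ := ih.1 hm
          have h3 := (hF2 m _ (hadd m)).1 hm
          rw [hst]
          constructor
          · refine h3.trans ?_
            rw [hTadd]
            have h5 : (0 : ℝ) ≤ 1 - 1 / k := by
              rw [sub_nonneg, div_le_one hk']; exact_mod_cast hk
            have h6 : (∑ v, st a m v + 1) * (1 - 1 / (k : ℝ)) ≤ (2 * k + 1) * (1 - 1 / k) :=
              mul_le_mul_of_nonneg_right (by linarith) h5
            have h7 : (2 * (k : ℝ) + 1) * (1 - 1 / k) = 2 * k - 1 - 1 / k := by field_simp; ring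
            have h8 : 0 < 1 / (k : ℝ) := by positivity
            linarith
          · have h4 := hZadd m
            have h5 := hZemp _ (hadd m) (F m (fun v => st a m v + a m v))
            linarith
        · refine ⟨fun _ => ?_, fun h => by omega⟩
          obtain ⟨h1, h2⟩ := ih.2 hm
          have h3 : ∑ v, (st a m v + a m v) ≤ (2 * k : ℕ) := by
            rw [hTadd]; push_cast; linarith
          have h4 := (hF2 m _ (hadd m)).2 hm h3
          have h5 := hZadd m
          rw [hst]
          constructor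
          · refine (hTemp _ (hadd m) _).trans (h3.trans ?_)
            push_cast; exact le_refl _
          · linarith
    have hZ7 : Z (st a n) ≤ 7 := by
      rcases Nat.mod_two_eq_zero_or_one n with hn | hn
      · linarith [((hinv n).1 hn).2]
      · exact ((hinv n).2 hn).2
    have h1 := hZadd n
    have h2 : max (st a n v + a n v - 1) 0 ≤ Z (fun v => st a n v + a n v) :=
      Finset.single_le_sum (f := fun v => max (st a n v + a n v - 1) 0) (fun v _ => le_max_right _ _)
        (Finset.mem_univ v)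
    have h3 := le_max_left (st a n v + a n v - 1) 0
    linarith

end Pool.Agent.R736.BK
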