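import Mathlib

set_option autoImplicit false

/-! A random multipartite graph without large bipartite holes and with sparse small sets. -/

namespace Pool.Agent.R736.BK

section count
variable {X : Type*} [Fintype X] [DecidableEq X] {N : ℕ}

theorem cyl (E : Finset X) (t : X → Finset (Fin N)) (q : ℝ)
    (ht : ∀ x ∈ E, ((t x).card : ℝ) ≤ N * q) :
    ((Finset.univ.filter (fun f : X → Fin N => ∀ x ∈ E, f x ∈ t x)).card : ℝ) ≤
      (N : ℝ) ^ (Fintype.card X) * q ^ E.card := by
  have h1 : Finset.univ.filter (fun f : X → Fin N => ∀ x ∈ E, f x ∈ t x) =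
      Fintype.piFinset (fun x => if x ∈ E then t x else Finset.univ) := by
    ext f
    rw [Finset.mem_filter, Fintype.mem_piFinset]
    constructor
    · rintro ⟨_, h⟩ x
      split_ifs with hx
      · exact h x hx
      · exact Finset.mem_univ _
    · intro h
      refine ⟨Finset.mem_univ _, fun x hx => ?_⟩
      have := h x
      rwa [if_pos hx] at this
  rw [h1, Fintype.card_piFinset]
  push_cast
  have h2 : (N : ℝ) ^ (Fintype.card X) * q ^ E.card = ∏ x : X, (N * if x ∈ E then q else 1) := by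
    rw [Finset.prod_mul_distrib, Finset.prod_const, Finset.card_univ, Finset.prod_ite_mem,
      Finset.univ_inter, Finset.prod_const]
  rw [h2]
  refine Finset.prod_le_prod (fun x _ => Nat.cast_nonneg _) fun x _ => ?_
  by_cases hx : x ∈ E
  · rw [if_pos hx, if_pos hx]; exact ht x hx
  · rw [if_neg hx, if_neg hx, Finset.card_univ, Fintype.card_fin, mul_one]

theorem card_biUnion_le' {ι α : Type*} [DecidableEq α] (s : Finset ι) (t : ι → Finset α) {b c : ℝ}
    (h : ∀ i ∈ s, ((t i).card : ℝ) ≤ b) (hb : 0 ≤ b) (hc : (s.card : ℝ) ≤ c) : ((s.biUnion t).card : ℝ) ≤ c * b := by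
  have h1 : ((s.biUnion t).card : ℝ) ≤ ∑ i ∈ s, ((t i).card : ℝ) := by
    exact_mod_cast Finset.card_biUnion_le
  refine h1.trans ((Finset.sum_le_sum h).trans ?_)
  rw [Finset.sum_const, nsmul_eq_mul]
  exact mul_le_mul_of_nonneg_right hc hb

end count

/-- the coordinates: source vertex, target part, index -/
abbrev Co (c N m : ℕ) := (Fin c × Fin N) × (Fin c × Fin m)

/-- the graph of a function on the coordinates -/
def gr {c N m : ℕ} (f : Co c N m → Fin N) : SimpleGraph (Fin c × Fin N) where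
  Adj u v := u.1 ≠ v.1 ∧ ((∃ s, f (u, (v.1, s)) = v.2) ∨ ∃ s, f (v, (u.1, s)) = u.2)
  symm := ⟨fun _ _ h => ⟨h.1.symm, h.2.symm⟩⟩
  loopless := ⟨fun _ h => h.1 rfl⟩

open Classical in
/-- the coordinates realising edges inside `S` -/
noncomputable def inner {c N m : ℕ} (f : Co c N m → Fin N) (S : Finset (Fin c × Fin N)) : Finset (Co c N m) :=
  (S ×ˢ (Finset.univ : Finset (Fin c × Fin m))).filter (fun x => (x.2.1, f x) ∈ S)

theorem exists_low_degree {c N m : ℕ} (f : Co c N m → Fin N) (S : Finset (Fin c × Fin N)) (hS : S.Nonempty)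
    (h : (inner f S).card ≤ S.card) :
    ∃ v ∈ S, ∃ T : Finset (Fin c × Fin N), T.card ≤ 2 ∧ ∀ w ∈ S, (gr f).Adj v w → w ∈ T := by
  classical
  by_contra hcon
  push Not at hcon
  have hdeg : ∀ v ∈ S, 3 ≤ (S.filter (fun w => (gr f).Adj v w)).card := by
    intro v hv
    by_contra h3
    obtain ⟨w, hw, h4, h5⟩ := hcon v hv (S.filter (fun w => (gr f).Adj v w)) (by omega)
    exact h5 (Finset.mem_filter.2 ⟨hw, h4⟩)
  set Pr := (S ×ˢ S).filter (fun p => (gr f).Adj p.1 p.2) with hPr
  have h1 : Pr.card = ∑ v ∈ S, (S.filter (fun w => (gr f).Adj v w)).card := by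
    simp only [hPr, Finset.card_filter, Finset.sum_product]
  have h2 : 3 * S.card ≤ Pr.card := by
    rw [h1]
    have := Finset.sum_le_sum hdeg
    rw [Finset.sum_const, smul_eq_mul] at this
    linarith
  have h3 : Pr ⊆ (inner f S).image (fun x => (x.1, (x.2.1, f x))) ∪
      (inner f S).image (fun x => ((x.2.1, f x), x.1)) := by
    rintro ⟨u, v⟩ huv
    rw [hPr, Finset.mem_filter, Finset.mem_product] at huv
    obtain ⟨⟨hu, hv⟩, hne, h4⟩ := huv
    simp only at hu hv hne h4
    rw [Finset.mem_union, Finset.mem_image, Finset.mem_image]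
    rcases h4 with ⟨s, hs⟩ | ⟨s, hs⟩
    · left
      refine ⟨(u, (v.1, s)), ?_, ?_⟩
      · rw [inner, Finset.mem_filter, Finset.mem_product]
        refine ⟨⟨hu, Finset.mem_univ _⟩, ?_⟩
        simp only [hs]; exact hv
      · simp only [hs]
    · right
      refine ⟨(v, (u.1, s)), ?_, ?_⟩
      · rw [inner, Finset.mem_filter, Finset.mem_product]
        refine ⟨⟨hv, Finset.mem_univ _⟩, ?_⟩
        simp only [hs]; exact hu
      · simp only [hs]
  have h4 : Pr.card ≤ (inner f S).card + (inner f S).card :=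
    (Finset.card_le_card h3).trans ((Finset.card_union_le _ _).trans
      (add_le_add Finset.card_image_le Finset.card_image_le))
  have h5 : 0 < S.card := Finset.card_pos.2 hS
  omega

theorem three_col {c N m : ℕ} (f : Co c N m → Fin N) (K : ℕ)
    (h : ∀ S : Finset (Fin c × Fin N), S.card ≤ K → (inner f S).card ≤ S.card) (n : ℕ) :
    ∀ S : Finset (Fin c × Fin N), S.card = n → n ≤ K →
      ∃ χ : Fin c × Fin N → Fin 3, ∀ u ∈ S, ∀ v ∈ S, (gr f).Adj u v → χ u ≠ χ v := by
  classical
  induction n with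
  | zero =>
    intro S hS _
    rw [Finset.card_eq_zero] at hS
    subst hS
    exact ⟨fun _ => 0, fun u hu => by simp at hu⟩
  | succ n ih =>
    intro S hS hK
    have hne : S.Nonempty := Finset.card_pos.1 (by omega)
    obtain ⟨v, hv, T, hT, hT'⟩ := exists_low_degree f S hne (h S (by omega))
    obtain ⟨χ, hχ⟩ := ih (S.erase v) (by rw [Finset.card_erase_of_mem hv]; omega) (by omega)
    obtain ⟨col, hcol⟩ : ∃ col, col ∉ T.image χ := by
      by_contra hcon
      push Not at hcon
      have h1 : T.image χ = Finset.univ := Finset.eq_univ_of_forall hcon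
      have h2 := Finset.card_image_le (s := T) (f := χ)
      rw [h1, Finset.card_univ, Fintype.card_fin] at h2
      omega
    refine ⟨Function.update χ v col, fun u hu w hw huw => ?_⟩
    by_cases h1 : u = v
    · subst h1
      have h2 : w ≠ u := fun h => (gr f).irrefl (h ▸ huw)
      rw [Function.update_self, Function.update_of_ne h2]
      intro h3
      exact hcol (Finset.mem_image.2 ⟨w, hT' w hw huw, h3.symm⟩)
    · by_cases h2 : w = v
      · subst h2
        rw [Function.update_self, Function.update_of_ne h1]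
        intro h3
        exact hcol (Finset.mem_image.2 ⟨u, hT' u hu huw.symm, h3⟩)
      · rw [Function.update_of_ne h1, Function.update_of_ne h2]
        exact hχ u (Finset.mem_erase.2 ⟨h1, hu⟩) w (Finset.mem_erase.2 ⟨h2, hw⟩) huw

theorem exists_graph (c : ℕ) (hc : 0 < c) (K : ℕ) : ∃ N, 0 < N ∧ ∃ H : SimpleGraph (Fin c × Fin N),
    (∀ i a b, ¬ H.Adj (i, a) (i, b)) ∧
    (∀ i j, i ≠ j → ∀ A B : Finset (Fin N), N ≤ 2 * c * A.card → N ≤ 2 * c * B.card →
      ∃ a ∈ A, ∃ b ∈ B, H.Adj (i, a) (j, b)) ∧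
    (∀ S : Finset (Fin c × Fin N), S.card ≤ K →
      ∃ χ : Fin c × Fin N → Fin 3, ∀ u ∈ S, ∀ v ∈ S, H.Adj u v → χ u ≠ χ v) := by
  classical
  have hcR : (0 : ℝ) < c := by exact_mod_cast hc
  have hc1 : (1 : ℝ) ≤ c := by exact_mod_cast hc
  set q1 : ℝ := 1 - 1 / (2 * c) with hq1
  have hq1' : q1 < 1 := by
    have : (0 : ℝ) < 1 / (2 * c) := by positivity
    rw [hq1]; linarith
  have hq10 : 0 ≤ q1 := by
    have : (1 : ℝ) / (2 * c) ≤ 1 := by
      rw [div_le_one (by positivity)]; linarith
    rw [hq1]; linarith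
  obtain ⟨m, hm⟩ := exists_pow_lt_of_lt_one (show (0 : ℝ) < 1 / (4 * 16 ^ c) by positivity) hq1'
  set M : ℝ := (K : ℝ) ^ 2 * c ^ 2 * m + 1 with hM
  have hM1 : 1 ≤ M := by
    have : (0 : ℝ) ≤ (K : ℝ) ^ 2 * c ^ 2 * m := by positivity
    rw [hM]; linarith
  obtain ⟨n, hn⟩ := exists_nat_gt (2 * ((c : ℝ) * c + K * M ^ (K + 1)))
  have hn0 : (0 : ℝ) < n := by
    have : (0 : ℝ) ≤ 2 * ((c : ℝ) * c + K * M ^ (K + 1)) := by positivity
    linarith
  have hn0' : 0 < n := by exact_mod_cast hn0
  set N := 2 * c * n with hN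
  have hN0 : 0 < N := by positivity
  have hNR : (0 : ℝ) < N := by exact_mod_cast hN0
  have hNn : (n : ℝ) ≤ N := by
    have : n ≤ N := by rw [hN]; nlinarith
    exact_mod_cast this
  set R := Fintype.card (Co c N m) with hR
  -- the first kind of bad functions
  set Bad1 : Finset (Co c N m → Fin N) :=
    (Finset.univ : Finset (Fin c × Fin c)).biUnion fun ij =>
      ((Finset.univ : Finset (Finset (Fin N))).filter (fun A => A.card = n)).biUnion fun A =>
        ((Finset.univ : Finset (Finset (Fin N))).filter (fun B => B.card = n)).biUnion fun B =>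
          Finset.univ.filter (fun f : Co c N m → Fin N =>
            ∀ x ∈ (({ij.1} : Finset (Fin c)) ×ˢ A) ×ˢ (({ij.2} : Finset (Fin c)) ×ˢ (Finset.univ : Finset (Fin m))),
              f x ∈ Finset.univ \ B) with hBad1
  have hb1 : (Bad1.card : ℝ) ≤ (c * c : ℝ) * (2 ^ N * (2 ^ N * ((N : ℝ) ^ R * q1 ^ (n * m)))) := by
    have hpow : ∀ (s : Finset (Finset (Fin N))), (s.card : ℝ) ≤ 2 ^ N := by
      intro s
      have h1 := Finset.card_le_univ s
      rw [Fintype.card_finset, Fintype.card_fin] at h1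
      exact_mod_cast h1
    refine card_biUnion_le' _ _ (fun ij _ => card_biUnion_le' _ _ (fun A hA =>
      card_biUnion_le' _ _ (fun B hB => ?_) (by positivity) (hpow _)) (by positivity) (hpow _)) (by positivity) ?_
    · rw [Finset.mem_filter] at hA hB
      have h1 := cyl ((({ij.1} : Finset (Fin c)) ×ˢ A) ×ˢ (({ij.2} : Finset (Fin c)) ×ˢ (Finset.univ : Finset (Fin m))))
        (fun _ => Finset.univ \ B) q1 (fun x _ => by
          have h2 : (Finset.univ \ B : Finset (Fin N)).card = N - n := by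
            rw [Finset.card_sdiff_of_subset (Finset.subset_univ _), Finset.card_univ, Fintype.card_fin, hB.2]
          rw [h2, Nat.cast_sub (by rw [hN]; nlinarith), hq1, mul_sub, mul_one]
          have h3 : (N : ℝ) * (1 / (2 * c)) = n := by
            rw [hN]; push_cast; field_simp
          rw [h3])
      refine h1.trans (le_of_eq ?_)
      congr 2
      rw [Finset.card_product, Finset.card_product, Finset.card_product, Finset.card_singleton,
        Finset.card_singleton, Finset.card_univ, Fintype.card_fin, hA.2]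
      ring
    · rw [Finset.card_univ, Fintype.card_prod, Fintype.card_fin]; push_cast; exact le_refl _
  -- the second kind
  set Bad2 : Finset (Co c N m → Fin N) :=
    (Finset.range K).biUnion fun s =>
      (Finset.powersetCard (s + 1) (Finset.univ : Finset (Fin c × Fin N))).biUnion fun S =>
        (Finset.powersetCard (s + 2) (S ×ˢ (Finset.univ : Finset (Fin c × Fin m)))).biUnion fun E =>
          Finset.univ.filter (fun f : Co c N m → Fin N =>
            ∀ x ∈ E, f x ∈ Finset.univ.filter (fun b => (x.2.1, b) ∈ S)) with hBad2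
  have hb2 : (Bad2.card : ℝ) ≤ K * ((N : ℝ) ^ R * (M ^ (K + 1) / N)) := by
    refine card_biUnion_le' _ _ (fun s hs => ?_) (by positivity) (by rw [Finset.card_range])
    rw [Finset.mem_range] at hs
    have h1 : (((Finset.powersetCard (s + 1) (Finset.univ : Finset (Fin c × Fin N))).biUnion fun S =>
        (Finset.powersetCard (s + 2) (S ×ˢ (Finset.univ : Finset (Fin c × Fin m)))).biUnion fun E =>
          Finset.univ.filter (fun f : Co c N m → Fin N =>
            ∀ x ∈ E, f x ∈ Finset.univ.filter (fun b => (x.2.1, b) ∈ S))).card : ℝ) ≤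
        ((c * N : ℝ) ^ (s + 1)) * (((K * (c * m) : ℝ) ^ (s + 2)) * ((N : ℝ) ^ R * ((K : ℝ) / N) ^ (s + 2))) := by
      refine card_biUnion_le' _ _ (fun S hS => card_biUnion_le' _ _ (fun E hE => ?_) (by positivity) ?_)
        (by positivity) ?_
      · rw [Finset.mem_powersetCard] at hS hE
        have h2 := cyl E (fun x => Finset.univ.filter (fun b => (x.2.1, b) ∈ S)) ((K : ℝ) / N) (fun x _ => by
          have h3 : (Finset.univ.filter (fun b : Fin N => (x.2.1, b) ∈ S)).card ≤ S.card :=
            Finset.card_le_card_of_injOn (fun b => (x.2.1, b))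
              (fun b hb => (Finset.mem_filter.1 hb).2) (fun a _ b _ hab => congr_arg Prod.snd hab)
          have h4 : (N : ℝ) * ((K : ℝ) / N) = K := by field_simp
          rw [h4]
          have h5 : (Finset.univ.filter (fun b : Fin N => (x.2.1, b) ∈ S)).card ≤ K := by omega
          exact_mod_cast h5)
        rw [hE.2] at h2
        exact h2
      · rw [Finset.mem_powersetCard] at hS
        rw [Finset.card_powersetCard, Finset.card_product, hS.2, Finset.card_univ, Fintype.card_prod,
          Fintype.card_fin, Fintype.card_fin]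
        have h2 : ((s + 1) * (c * m)).choose (s + 2) ≤ ((s + 1) * (c * m)) ^ (s + 2) := Nat.choose_le_pow _ _
        have h3 : ((s + 1) * (c * m)) ^ (s + 2) ≤ (K * (c * m)) ^ (s + 2) :=
          Nat.pow_le_pow_left (Nat.mul_le_mul_right _ (by omega)) _
        exact_mod_cast h2.trans h3
      · rw [Finset.card_powersetCard, Finset.card_univ, Fintype.card_prod, Fintype.card_fin, Fintype.card_fin]
        exact_mod_cast Nat.choose_le_pow _ _
    refine h1.trans ?_
    have h2 : ((c * N : ℝ) ^ (s + 1)) * (((K * (c * m) : ℝ) ^ (s + 2)) * ((N : ℝ) ^ R * ((K : ℝ) / N) ^ (s + 2))) =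
        (N : ℝ) ^ R * ((c : ℝ) ^ (s + 1) * ((K : ℝ) ^ 2 * c * m) ^ (s + 2) / N) := by
      rw [mul_pow (c : ℝ) N, div_pow]
      field_simp
      ring
    rw [h2]
    refine mul_le_mul_of_nonneg_left ?_ (by positivity)
    refine div_le_div_of_nonneg_right ?_ hNR.le
    calc (c : ℝ) ^ (s + 1) * ((K : ℝ) ^ 2 * c * m) ^ (s + 2)
        ≤ (c : ℝ) ^ (s + 2) * ((K : ℝ) ^ 2 * c * m) ^ (s + 2) :=
          mul_le_mul_of_nonneg_right (pow_le_pow_right₀ hc1 (by omega)) (by positivity)
      _ = ((K : ℝ) ^ 2 * c ^ 2 * m) ^ (s + 2) := by rw [← mul_pow]; congr 1; ring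
      _ ≤ M ^ (s + 2) := pow_le_pow_left₀ (by positivity) (by rw [hM]; linarith) _
      _ ≤ M ^ (K + 1) := pow_le_pow_right₀ hM1 (by omega)
  -- a good function exists
  obtain ⟨f, hf⟩ : ∃ f : Co c N m → Fin N, f ∉ Bad1 ∪ Bad2 := by
    by_contra hcon
    push Not at hcon
    have h1 : Bad1 ∪ Bad2 = Finset.univ := Finset.eq_univ_of_forall hcon
    have h2 : ((Bad1 ∪ Bad2).card : ℝ) = (N : ℝ) ^ R := by
      rw [h1, Finset.card_univ, Fintype.card_fun, Fintype.card_fin]; push_cast; rfl
    have h3 : ((Bad1 ∪ Bad2).card : ℝ) ≤ Bad1.card + Bad2.card := by exact_mod_cast Finset.card_union_le _ _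
    have hNRp : (0 : ℝ) < (N : ℝ) ^ R := by positivity
    have h4 : (c * c : ℝ) * (2 ^ N * (2 ^ N * ((N : ℝ) ^ R * q1 ^ (n * m)))) < (N : ℝ) ^ R * (1 / 2) := by
      have e1 : (c * c : ℝ) * (2 ^ N * (2 ^ N * ((N : ℝ) ^ R * q1 ^ (n * m)))) =
          (N : ℝ) ^ R * ((c * c) * (16 ^ c * q1 ^ m) ^ n) := by
        have e2 : (2 : ℝ) ^ N * 2 ^ N = (16 ^ c) ^ n := by
          rw [← pow_add, ← pow_mul, hN]
          have : (16 : ℝ) = 2 ^ 4 := by norm_num
          rw [this, ← pow_mul]; congr 1; ring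
        rw [mul_pow, ← e2, ← pow_mul, mul_comm m n]; ring
      rw [e1]
      refine mul_lt_mul_of_pos_left ?_ hNRp
      have e3 : 16 ^ c * q1 ^ m ≤ 1 / 4 := by
        have := mul_le_mul_of_nonneg_left hm.le (show (0 : ℝ) ≤ 16 ^ c by positivity)
        refine this.trans (le_of_eq ?_)
        field_simp
      have e4 : (16 ^ c * q1 ^ m) ^ n ≤ (1 / 4 : ℝ) ^ n := pow_le_pow_left₀ (by positivity) e3 _
      have e5 : (1 / 4 : ℝ) ^ n ≤ 1 / n := by
        rw [div_pow, one_pow]
        refine one_div_le_one_div_of_le hn0 ?_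
        exact_mod_cast (Nat.lt_pow_self (by norm_num : 1 < 4)).le
      have e6 : (c * c : ℝ) * (16 ^ c * q1 ^ m) ^ n ≤ c * c * (1 / n) :=
        mul_le_mul_of_nonneg_left (e4.trans e5) (by positivity)
      refine e6.trans_lt ?_
      rw [mul_one_div, div_lt_iff₀ hn0]
      have : (0 : ℝ) ≤ K * M ^ (K + 1) := by positivity
      linarith
    have h5 : K * ((N : ℝ) ^ R * (M ^ (K + 1) / N)) ≤ (N : ℝ) ^ R * (1 / 2) := by
      have e1 : K * ((N : ℝ) ^ R * (M ^ (K + 1) / N)) = (N : ℝ) ^ R * (K * M ^ (K + 1) / N) := by ring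
      rw [e1]
      refine mul_le_mul_of_nonneg_left ?_ hNRp.le
      rw [div_le_iff₀ hNR]
      have : (0 : ℝ) ≤ (c : ℝ) * c := by positivity
      linarith
    linarith
  rw [Finset.mem_union, not_or] at hf
  obtain ⟨hf1, hf2⟩ := hf
  refine ⟨N, hN0, gr f, fun i a b h => h.1 rfl, ?_, ?_⟩
  · intro i j hij A B hA hB
    have h2c : 0 < 2 * c := by positivity
    have hA2 : 2 * c * n ≤ 2 * c * A.card := hA
    have hB2 : 2 * c * n ≤ 2 * c * B.card := hB
    have hA' : n ≤ A.card := Nat.le_of_mul_le_mul_left hA2 h2c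
    have hB' : n ≤ B.card := Nat.le_of_mul_le_mul_left hB2 h2c
    obtain ⟨A', hAA', hA'c⟩ := Finset.exists_subset_card_eq hA'
    obtain ⟨B', hBB', hB'c⟩ := Finset.exists_subset_card_eq hB'
    by_contra hcon
    push Not at hcon
    refine hf1 ?_
    rw [hBad1, Finset.mem_biUnion]
    refine ⟨(i, j), Finset.mem_univ _, ?_⟩
    rw [Finset.mem_biUnion]
    refine ⟨A', Finset.mem_filter.2 ⟨Finset.mem_univ _, hA'c⟩, ?_⟩
    rw [Finset.mem_biUnion]
    refine ⟨B', Finset.mem_filter.2 ⟨Finset.mem_univ _, hB'c⟩, ?_⟩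
    rw [Finset.mem_filter]
    refine ⟨Finset.mem_univ _, ?_⟩
    rintro ⟨⟨i', a⟩, ⟨j', s⟩⟩ hx
    rw [Finset.mem_product, Finset.mem_product, Finset.mem_product, Finset.mem_singleton,
      Finset.mem_singleton] at hx
    obtain ⟨⟨rfl, ha⟩, rfl, -⟩ := hx
    rw [Finset.mem_sdiff]
    refine ⟨Finset.mem_univ _, fun hb => ?_⟩
    exact hcon a (hAA' ha) _ (hBB' hb) ⟨hij, Or.inl ⟨s, rfl⟩⟩
  · intro S hS
    refine three_col f K ?_ S.card S rfl hS
    intro S hS
    by_contra hcon
    push Not at hcon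
    have hne : 0 < S.card := by
      rcases Nat.eq_zero_or_pos S.card with h0 | h0
      · rw [Finset.card_eq_zero] at h0
        subst h0
        simp [inner] at hcon
      · exact h0
    obtain ⟨E, hE, hEc⟩ := Finset.exists_subset_card_eq (Nat.succ_le_of_lt hcon)
    refine hf2 ?_
    rw [hBad2, Finset.mem_biUnion]
    refine ⟨S.card - 1, Finset.mem_range.2 (by omega), ?_⟩
    rw [Finset.mem_biUnion]
    refine ⟨S, Finset.mem_powersetCard.2 ⟨Finset.subset_univ _, by omega⟩, ?_⟩
    rw [Finset.mem_biUnion]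
    refine ⟨E, Finset.mem_powersetCard.2 ⟨?_, by omega⟩, ?_⟩
    · refine hE.trans ?_
      rw [inner]
      exact Finset.filter_subset _ _
    · rw [Finset.mem_filter]
      refine ⟨Finset.mem_univ _, fun x hx => ?_⟩
      rw [Finset.mem_filter]
      refine ⟨Finset.mem_univ _, ?_⟩
      have := hE hx
      rw [inner, Finset.mem_filter] at this
      exact this.2

end Pool.Agent.R736.BK
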