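import Pool.Agent.R736.BK.Defs

set_option autoImplicit false

/-! GREEDY is bad on cones over graphs without large bipartite holes. -/

namespace Pool.Agent.R736.BK

section general
variable {V : Type*} [Fintype V] [DecidableEq V]

theorem sum_emp (x : V → ℝ) (I : Finset V) : ∑ v, emp x I v = ∑ v, x v - ∑ v ∈ I, x v := by
  rw [eq_sub_iff_add_eq, ← Finset.sum_filter_add_sum_filter_not Finset.univ (fun v => v ∈ I) x, add_comm]
  have e1 : Finset.univ.filter (fun v => v ∈ I) = I := by ext v; simp
  rw [e1]
  congr 1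
  rw [Finset.sum_filter]
  refine Finset.sum_congr rfl fun v _ => ?_
  by_cases h : v ∈ I <;> simp [emp, h]

omit [DecidableEq V] in
theorem exists_greedy (G : SimpleGraph V) (x : V → ℝ) : ∃ I, IsGreedy G x I := by
  classical
  obtain ⟨I, hI, hmax⟩ := Finset.exists_max_image (Finset.univ.filter (fun J : Finset V => Indep G J))
    (fun J => ∑ v ∈ J, x v) ⟨∅, by rw [Finset.mem_filter]; exact ⟨Finset.mem_univ _, fun u hu => by simp at hu⟩⟩
  rw [Finset.mem_filter] at hI
  exact ⟨I, hI.2, fun J hJ => hmax J (by rw [Finset.mem_filter]; exact ⟨Finset.mem_univ _, hJ⟩)⟩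

theorem ggood_card [Nonempty V] (G : SimpleGraph V) : GGood G (Fintype.card V) := by
  intro a I ha hI
  set n : ℝ := (Fintype.card V : ℝ) with hn
  have hn0 : 0 < n := by rw [hn]; exact_mod_cast Fintype.card_pos
  have hnn : ∀ m v, 0 ≤ content a I m v := by
    intro m
    induction m with
    | zero => intro v; rw [content]
    | succ m ih =>
      intro v
      show 0 ≤ emp (fun v => content a I m v + a m v) (I m) v
      exact emp_nonneg (fun v => add_nonneg (ih v) ((ha m).1 v)) _ v
  have hy : ∀ m v, 0 ≤ content a I m v + a m v := fun m v => add_nonneg (hnn m v) ((ha m).1 v)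
  have hT : ∀ m, ∑ v, content a I m v ≤ n - 1 := by
    intro m
    induction m with
    | zero =>
      simp only [content, Finset.sum_const_zero]
      have : (1 : ℝ) ≤ n := by rw [hn]; exact_mod_cast Nat.succ_le_of_lt Fintype.card_pos
      linarith
    | succ m ih =>
      have h1 : ∑ v, content a I (m + 1) v = ∑ v, emp (fun v => content a I m v + a m v) (I m) v := rfl
      rw [h1, sum_emp]
      have h2 : ∑ v, (content a I m v + a m v) ≤ n := by
        rw [Finset.sum_add_distrib, (ha m).2]; linarith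
      have h3 : ∑ v, (content a I m v + a m v) ≤ n * ∑ v ∈ I m, (content a I m v + a m v) := by
        have h4 : ∀ v ∈ Finset.univ, content a I m v + a m v ≤ ∑ v ∈ I m, (content a I m v + a m v) := by
          intro v _
          have := (hI m).2 {v} (by
            intro u hu w hw huw
            rw [Finset.mem_singleton] at hu hw
            subst hu; subst hw
            exact G.irrefl huw)
          rwa [Finset.sum_singleton] at this
        have h5 := Finset.sum_le_sum h4
        rw [Finset.sum_const, Finset.card_univ, nsmul_eq_mul] at h5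
        exact h5
      set s := ∑ v, (content a I m v + a m v) with hs
      set q := ∑ v ∈ I m, (content a I m v + a m v) with hq
      have hn1 : (1 : ℝ) ≤ n := by rw [hn]; exact_mod_cast Nat.succ_le_of_lt Fintype.card_pos
      -- n (s - q) ≤ (n-1) s ≤ (n-1) n
      have h6 : n * (s - q) ≤ n * (n - 1) := by nlinarith
      exact le_of_mul_le_mul_left h6 hn0
  intro m v
  have h1 : content a I m v + a m v ≤ ∑ v, (content a I m v + a m v) :=
    Finset.single_le_sum (f := fun v => content a I m v + a m v) (fun v _ => hy m v) (Finset.mem_univ v)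
  rw [Finset.sum_add_distrib, (ha m).2] at h1
  linarith [hT m]

end general

variable {c N : ℕ}

/-- the cone over `H` -/
def apex {W : Type*} (H : SimpleGraph W) : SimpleGraph (Option W) where
  Adj u v := match u, v with
    | none, none => False
    | none, some _ => True
    | some _, none => True
    | some x, some y => H.Adj x y
  symm := ⟨by
    intro u v h
    rcases u with _ | u <;> rcases v with _ | v
    · exact h
    · trivial
    · trivial
    · exact H.adj_symm h⟩
  loopless := ⟨by
    intro u h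
    rcases u with _ | u
    · exact h
    · exact H.irrefl h⟩

/-- the partial harmonic sums -/
noncomputable def l (c t : ℕ) : ℝ := ∑ s ∈ Finset.range t, 1 / ((c : ℝ) - s + 1)

/-- the invariant -/
def Invt (c N t : ℕ) (x : Option (Fin c × Fin N) → ℝ) : Prop :=
  (∀ v, 0 ≤ x v) ∧ x none = l c t / 2 ∧ ∃ (D : Finset (Fin c)) (A : Fin c → Finset (Fin N)),
    D.card = t ∧ ∀ i ∉ D, 2 * c * N ≤ 2 * c * (A i).card + t * N ∧ ∀ u ∈ A i, l c t / N ≤ x (some (i, u))

theorem l_nonneg {c t : ℕ} (h : t ≤ c) : 0 ≤ l c t := by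
  refine Finset.sum_nonneg fun s hs => ?_
  rw [Finset.mem_range] at hs
  have : (s : ℝ) ≤ c := by exact_mod_cast (hs.le.trans h)
  have : 0 < (c : ℝ) - s + 1 := by linarith
  positivity

theorem stepI (H : SimpleGraph (Fin c × Fin N)) (hN : 0 < N) (hi : ∀ i a b, ¬ H.Adj (i, a) (i, b))
    (hii : ∀ i j, i ≠ j → ∀ A B : Finset (Fin N), N ≤ 2 * c * A.card → N ≤ 2 * c * B.card →
      ∃ a ∈ A, ∃ b ∈ B, H.Adj (i, a) (j, b))
    {t : ℕ} (ht : t < c) (x : Option (Fin c × Fin N) → ℝ) (hx : Invt c N t x) :
    ∃ a I, Move a ∧ IsGreedy (apex H) (fun v => x v + a v) I ∧ Invt c N (t + 1) (emp (fun v => x v + a v) I) := by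
  classical
  obtain ⟨hx0, hxn, D, A, hD, hA⟩ := hx
  have hNR : (0 : ℝ) < N := by exact_mod_cast hN
  have htc : (t : ℝ) + 1 ≤ c := by exact_mod_cast ht
  set d : ℝ := 1 / ((c : ℝ) - t + 1) with hd
  have hden : 0 < (c : ℝ) - t + 1 := by linarith
  have hd0 : 0 < d := by positivity
  have hcd : ((c : ℝ) - t) * d = 1 - d := by rw [hd]; field_simp; ring
  have hl : l c (t + 1) = l c t + d := by rw [l, Finset.sum_range_succ, ← l, hd]
  set e : Fin c × Fin N → ℝ := fun p => if p.1 ∉ D ∧ p.2 ∈ A p.1 then d / N else 0 with he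
  have he0 : ∀ p, 0 ≤ e p := fun p => by rw [he]; simp only; split_ifs <;> positivity
  have hes : ∑ p, e p ≤ 1 - d := by
    rw [Fintype.sum_prod_type]
    have h1 : ∀ i : Fin c, ∑ u : Fin N, e (i, u) ≤ if i ∈ Dᶜ then d else 0 := by
      intro i
      by_cases h : i ∈ D
      · have : ∀ u, e (i, u) = 0 := fun u => by rw [he]; simp [h]
        simp [this, h]
      · rw [if_pos (Finset.mem_compl.2 h)]
        calc ∑ u : Fin N, e (i, u) ≤ ∑ _u : Fin N, d / N := by
              refine Finset.sum_le_sum fun u _ => ?_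
              rw [he]; simp only; split_ifs
              · exact le_refl _
              · positivity
          _ = d := by
              rw [Finset.sum_const, Finset.card_univ, Fintype.card_fin, nsmul_eq_mul]; field_simp
    refine (Finset.sum_le_sum fun i _ => h1 i).trans ?_
    rw [Finset.sum_ite_mem, Finset.univ_inter, Finset.sum_const, Finset.card_compl, Fintype.card_fin,
      hD, nsmul_eq_mul, Nat.cast_sub ht.le, hcd]
  set r : ℝ := 1 - d / 2 - ∑ p, e p with hr
  have hr0 : 0 ≤ r := by rw [hr]; linarith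
  have hc : 0 < c := by omega
  set p0 : Fin c × Fin N := (⟨0, hc⟩, ⟨0, hN⟩) with hp0
  set a : Option (Fin c × Fin N) → ℝ := fun v => match v with
    | none => d / 2
    | some p => e p + if p = p0 then r else 0 with ha
  have ha0 : ∀ v, 0 ≤ a v := by
    intro v
    rcases v with _ | p
    · exact (by positivity : (0 : ℝ) ≤ d / 2)
    · refine add_nonneg (he0 p) ?_
      split_ifs
      · exact hr0
      · exact le_refl _
  have haM : Move a := by
    refine ⟨ha0, ?_⟩
    rw [Fintype.sum_option]
    show d / 2 + ∑ p, (e p + if p = p0 then r else 0) = 1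
    rw [Finset.sum_add_distrib, Finset.sum_ite_eq' Finset.univ p0, if_pos (Finset.mem_univ _), hr]
    ring
  set y : Option (Fin c × Fin N) → ℝ := fun v => x v + a v with hy
  have hy0 : ∀ v, 0 ≤ y v := fun v => add_nonneg (hx0 v) (ha0 v)
  have hyn : y none = l c (t + 1) / 2 := by
    show x none + d / 2 = _
    rw [hxn, hl]; ring
  have hyA : ∀ i ∉ D, ∀ u ∈ A i, l c (t + 1) / N ≤ y (some (i, u)) := by
    intro i hiD u hu
    have h1 := (hA i hiD).2 u hu
    have h2 : d / N ≤ a (some (i, u)) := by
      show d / N ≤ e (i, u) + if (i, u) = p0 then r else 0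
      have h3 : e (i, u) = d / N := by rw [he]; simp only; rw [if_pos ⟨hiD, hu⟩]
      rw [h3]
      have : (0 : ℝ) ≤ if (i, u) = p0 then r else 0 := by
        split_ifs
        · exact hr0
        · exact le_refl _
      linarith
    show _ ≤ x (some (i, u)) + a (some (i, u))
    rw [hl, add_div]
    linarith
  -- a maximal independent set of `H`
  obtain ⟨I, hI, hmax⟩ := Finset.exists_max_image
    (Finset.univ.filter (fun J : Finset (Option (Fin c × Fin N)) => none ∉ J ∧ Indep (apex H) J))
    (fun J => ∑ v ∈ J, y v) ⟨∅, by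
      rw [Finset.mem_filter]; exact ⟨Finset.mem_univ _, by simp, fun u hu => by simp at hu⟩⟩
  rw [Finset.mem_filter] at hI
  obtain ⟨-, hIn, hIi⟩ := hI
  have hlt : 0 ≤ l c (t + 1) := l_nonneg (by omega)
  -- there is a live part
  obtain ⟨i0, hi0⟩ : ∃ i, i ∉ D := by
    by_contra hcon
    push Not at hcon
    have : D = Finset.univ := Finset.eq_univ_of_forall hcon
    rw [this, Finset.card_univ, Fintype.card_fin] at hD
    omega
  have hpart : y none ≤ ∑ v ∈ I, y v := by
    set Q : Finset (Option (Fin c × Fin N)) := Finset.univ.map ⟨fun u : Fin N => some (i0, u), by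
      intro u v h; simpa using h⟩ with hQ
    have h1 : ∑ v ∈ Q, y v ≤ ∑ v ∈ I, y v := by
      refine hmax Q ?_
      rw [Finset.mem_filter]
      refine ⟨Finset.mem_univ _, ?_, ?_⟩
      · rw [hQ, Finset.mem_map]; rintro ⟨u, _, hu⟩; simp at hu
      · intro u hu v hv huv
        rw [hQ, Finset.mem_map] at hu hv
        obtain ⟨u', _, rfl⟩ := hu
        obtain ⟨v', _, rfl⟩ := hv
        exact hi i0 u' v' huv
    refine le_trans ?_ h1
    rw [hQ, Finset.sum_map]
    have h2 : ∑ u ∈ A i0, y (some (i0, u)) ≤ ∑ u : Fin N, y (some (i0, u)) :=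
      Finset.sum_le_sum_of_subset_of_nonneg (Finset.subset_univ _) fun u _ _ => hy0 _
    refine le_trans ?_ h2
    have h3 : ∑ _u ∈ A i0, l c (t + 1) / N ≤ ∑ u ∈ A i0, y (some (i0, u)) :=
      Finset.sum_le_sum fun u hu => hyA i0 hi0 u hu
    refine le_trans ?_ h3
    rw [Finset.sum_const, nsmul_eq_mul, hyn]
    have h4 : (N : ℝ) / 2 ≤ (A i0).card := by
      have h5 := (hA i0 hi0).1
      have h6 : (2 * c * N : ℝ) ≤ 2 * c * (A i0).card + t * N := by exact_mod_cast h5
      have h7 : (t : ℝ) * N ≤ c * N := mul_le_mul_of_nonneg_right (by linarith) hNR.le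
      have hcR : (0 : ℝ) < c := by exact_mod_cast hc
      have h8 : (c : ℝ) * N ≤ 2 * c * (A i0).card := by linarith
      have h9 : (c : ℝ) * (N / 2) ≤ c * (A i0).card := by linarith
      exact le_of_mul_le_mul_left h9 hcR
    calc l c (t + 1) / 2 = (N / 2) * (l c (t + 1) / N) := by field_simp
      _ ≤ (A i0).card * (l c (t + 1) / N) := mul_le_mul_of_nonneg_right h4 (by positivity)
  have hgr : IsGreedy (apex H) y I := by
    refine ⟨hIi, fun J hJ => ?_⟩
    by_cases hJn : none ∈ J
    · have hJ1 : J = {none} := by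
        ext v
        rw [Finset.mem_singleton]
        constructor
        · intro hv
          rcases v with _ | v
          · rfl
          · exact absurd (show (apex H).Adj none (some v) from trivial) (hJ _ hJn _ hv)
        · rintro rfl; exact hJn
      rw [hJ1, Finset.sum_singleton]
      exact hpart
    · exact hmax J (by rw [Finset.mem_filter]; exact ⟨Finset.mem_univ _, hJn, hJ⟩)
  -- the new dead part
  set J : Fin c → Finset (Fin N) := fun i => Finset.univ.filter (fun u => some (i, u) ∈ I) with hJdef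
  have huniq : ∀ i j, N ≤ 2 * c * (J i).card → N ≤ 2 * c * (J j).card → i = j := by
    intro i j h1 h2
    by_contra hij
    obtain ⟨a, ha, b, hb, hab⟩ := hii i j hij _ _ h1 h2
    rw [hJdef, Finset.mem_filter] at ha hb
    exact hIi _ ha.2 _ hb.2 hab
  obtain ⟨i1, hi1, hi1'⟩ : ∃ i1, i1 ∉ D ∧ ∀ i ∉ insert i1 D, 2 * c * (J i).card < N := by
    by_cases h : ∃ i, i ∉ D ∧ N ≤ 2 * c * (J i).card
    · obtain ⟨i1, h1, h2⟩ := h
      refine ⟨i1, h1, fun i hi' => ?_⟩
      by_contra h3
      push Not at h3
      exact hi' (by rw [huniq i i1 h3 h2]; exact Finset.mem_insert_self _ _)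
    · push Not at h
      exact ⟨i0, hi0, fun i hi' => h i fun h' => hi' (Finset.mem_insert_of_mem h')⟩
  refine ⟨a, I, haM, hgr, fun v => emp_nonneg hy0 I v, ?_, insert i1 D, fun i => A i \ J i, ?_, ?_⟩
  · rw [emp, if_neg hIn]; exact hyn
  · rw [Finset.card_insert_of_notMem hi1, hD]
  · intro i hi'
    have hiD : i ∉ D := fun h => hi' (Finset.mem_insert_of_mem h)
    refine ⟨?_, ?_⟩
    · have h1 := (hA i hiD).1
      have h2 := hi1' i hi'
      have h3 : (A i).card ≤ (A i \ J i).card + (J i).card := by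
        exact Finset.card_le_card_sdiff_add_card
      have h4 : 2 * c * (A i).card ≤ 2 * c * (A i \ J i).card + 2 * c * (J i).card := by
        rw [← mul_add]; exact Nat.mul_le_mul_left _ h3
      have h5 : (t + 1) * N = t * N + N := by ring
      show 2 * c * N ≤ 2 * c * (A i \ J i).card + (t + 1) * N
      rw [h5]; omega
    · intro u hu
      rw [Finset.mem_sdiff, hJdef, Finset.mem_filter] at hu
      have hnI : some (i, u) ∉ I := fun h => hu.2 ⟨Finset.mem_univ _, h⟩
      rw [emp, if_neg hnI]
      exact hyA i hiD u hu.1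

theorem lower (H : SimpleGraph (Fin c × Fin N)) (hN : 0 < N) (hi : ∀ i a b, ¬ H.Adj (i, a) (i, b))
    (hii : ∀ i j, i ≠ j → ∀ A B : Finset (Fin N), N ≤ 2 * c * A.card → N ≤ 2 * c * B.card →
      ∃ a ∈ A, ∃ b ∈ B, H.Adj (i, a) (j, b))
    {b : ℝ} (hb : GGood (apex H) b) : l c c / 2 ≤ b := by
  classical
  have hmove : Move (fun v : Option (Fin c × Fin N) => if v = none then (1 : ℝ) else 0) := by
    refine ⟨fun v => by by_cases h : v = none <;> simp [h], ?_⟩
    rw [Finset.sum_ite_eq' Finset.univ none, if_pos (Finset.mem_univ _)]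
  have hpol : ∀ (t : ℕ) (x : Option (Fin c × Fin N) → ℝ), ∃ a I, Move a ∧
      IsGreedy (apex H) (fun v => x v + a v) I ∧
      (t < c → Invt c N t x → Invt c N (t + 1) (emp (fun v => x v + a v) I)) := by
    intro t x
    by_cases h : t < c ∧ Invt c N t x
    · obtain ⟨a, I, h1, h2, h3⟩ := stepI H hN hi hii h.1 x h.2
      exact ⟨a, I, h1, h2, fun _ _ => h3⟩
    · obtain ⟨I, hI⟩ := exists_greedy (apex H)
        (fun v => x v + (if v = none then (1 : ℝ) else 0))
      exact ⟨_, I, hmove, hI, fun h1 h2 => absurd ⟨h1, h2⟩ h⟩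
  choose pa pI h1 h2 h3 using hpol
  let x : ℕ → Option (Fin c × Fin N) → ℝ := fun n => Nat.rec (fun _ => 0)
    (fun n y => emp (fun v => y v + pa n y v) (pI n y)) n
  have hx0 : x 0 = fun _ => 0 := rfl
  have hxs : ∀ n, x (n + 1) = emp (fun v => x n v + pa n (x n) v) (pI n (x n)) := fun n => rfl
  have hcont : ∀ n, content (fun n => pa n (x n)) (fun n => pI n (x n)) n = x n := by
    intro n
    induction n with
    | zero => rw [content, hx0]
    | succ n ih =>
      rw [content, hxs]
      funext v
      rw [ih, emp]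
  have hinv : ∀ n ≤ c, Invt c N n (x n) := by
    intro n
    induction n with
    | zero =>
      intro _
      refine ⟨fun v => by rw [hx0], by rw [hx0, l]; simp, ∅, fun _ => Finset.univ, rfl, fun i _ => ⟨by simp, ?_⟩⟩
      intro u _
      rw [hx0, l]; simp
    | succ n ih =>
      intro hn
      rw [hxs]
      exact h3 n (x n) (by omega) (ih (by omega))
  have h4 := hb (fun n => pa n (x n)) (fun n => pI n (x n)) (fun n => h1 _ _)
    (fun n => by rw [hcont]; exact h2 n (x n)) c none
  rw [hcont] at h4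
  have h5 := (hinv c le_rfl).2.1
  have h6 := (h1 c (x c)).1 none
  rw [h5] at h4
  linarith

/-- the harmonic sums are unbounded -/
theorem l_unbounded (C : ℝ) : ∃ c : ℕ, 0 < c ∧ C < l c c := by
  have h1 : Filter.Tendsto (fun n => ∑ i ∈ Finset.range n, (1 / ((i : ℝ) + 1))) Filter.atTop Filter.atTop :=
    Real.tendsto_sum_range_one_div_nat_succ_atTop
  obtain ⟨n, hn, hn0⟩ := ((h1.eventually (Filter.eventually_gt_atTop (C + 1))).and
    (Filter.eventually_gt_atTop 1)).exists
  refine ⟨n - 1, by omega, ?_⟩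
  obtain ⟨m, rfl⟩ : ∃ m, n = m + 1 := ⟨n - 1, by omega⟩
  rw [Nat.add_sub_cancel]
  have h2 : l m m = ∑ i ∈ Finset.range m, 1 / (((i : ℝ) + 1) + 1) := by
    rw [l, ← Finset.sum_range_reflect]
    refine Finset.sum_congr rfl fun i hi => ?_
    rw [Finset.mem_range] at hi
    have : ((m - 1 - i : ℕ) : ℝ) = m - 1 - i := by
      rw [Nat.cast_sub (by omega), Nat.cast_sub (by omega)]; simp
    rw [this]; congr 1; ring
  rw [Finset.sum_range_succ'] at hn
  rw [h2]
  have h3 : ∑ k ∈ Finset.range m, 1 / (((k + 1 : ℕ) : ℝ) + 1) = ∑ i ∈ Finset.range m, 1 / (((i : ℝ) + 1) + 1) := by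
    refine Finset.sum_congr rfl fun i _ => ?_
    push_cast; rfl
  rw [h3] at hn
  norm_num at hn ⊢
  linarith

end Pool.Agent.R736.BK
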